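import Pool.Agent.R898.MBM

/-!
# Murre's conjecture (B) and the injectivity of the Lefschetz maps on Chow groups

The setting: `𝒱` is a class of smooth projective varieties over a field, closed under products, `C`
stands for the Chow groups with rational coefficients, `W` for a Weil cohomology theory (for example
singular cohomology); `n = dim X`.

* `ChowLefInj C X D`: the maps `D^(n-2m) : CH^m(X) → CH^(n-m)(X)` are injective for all `m ≤ n/2`.
* `LefStd W X D`: `D` is a divisor class and the standard conjecture of Lefschetz type holds for
  `(X, D)`.
* A *Lefschetz system* for `(X, D)` (`IsSystem`) is an `sl₂`-triple `(Δ_* D, ∑ (j - n) π_j, Λ)` of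
  correspondences, the `π_j` being orthogonal idempotents with sum the diagonal. Such systems are known
  for abelian varieties and symmetric ample `D` (Deninger–Murre, Künnemann), for curves and `D` a
  multiple of a point, for hypersurfaces and the hyperplane class, for K3 surfaces and ample `D`
  (Beauville–Voisin), and for products of such pairs with the class `p_1^* D + p_2^* E`. `Good`:
  there is such a system and `LefStd` holds (it does in the examples).
* `NilpCorr W X`: the homologically trivial elements of `CH^n(X × X)` are nilpotent (true for products
  of curves and the varieties dominated by them, Kimura).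
* `ckf C π i k = F^k CH^i(X)`, the filtration of the decomposition `π`.

The theorem:

1. Let `(D, Λ, π)` be a Lefschetz system and `LefStd W X D`. Then `π` is a Chow–Künneth decomposition,
   `F^(i+1) CH^i(X) = 0` for all `i`, and one has `F^0 CH^i(X) = CH^i(X)` for all `i` if and only if
   the maps `D^(n-2m) : CH^m(X) → CH^(n-m)(X)` are injective for all `m ≤ n/2`.
2. Let `(X, D)` be good and the homologically trivial elements of `CH^n(X × X)` nilpotent. If the
   Lefschetz maps of `(X, D)` and of `(X × X, p_1^* D + p_2^* D)` are injective on the Chow groups then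
   Murre's conjectures (A), (B), (C) hold for `X` (with all its Chow–Künneth decompositions).
3. Let `S` be a class of good pairs, closed under products, with nilpotent homologically trivial
   self-correspondences, such that each `X` in `𝒱` is dominated by a `Z` with `(Z, D)` in `S` (for
   example the products of curves, with `𝒱` the varieties dominated by them). The following are
   equivalent: the Lefschetz maps `D^(n-2m)`, `m ≤ n/2`, are injective on the Chow groups for the pairs
   in `S`; Murre's conjecture (B) holds for all `X` in `𝒱`; Murre's conjectures (A), (B), (C) hold for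
   all `X` in `𝒱`; these Lefschetz maps are injective for all `X` in `𝒱` and all `D` with `LefStd`.
-/

open Pool.Agent.H914 Pool.Agent.R903 Pool.Agent.R898.HL Pool.Agent.R898.MB

universe u v w

/-- Murre's conjecture (B) and the injectivity of the Lefschetz maps. -/
theorem Pool.Agent.Results.MP_d6e134_ag.LefschetzInjectivity.result {k : Type u} [Field k]
    {𝒱 : VarClass k} (C : ChowTheory.{u, v} 𝒱) (W : WeilTheory.{u, v, w} C) :
    (∀ (X : 𝒱.Obj) (D : C.CH X) (Λ : C.CH (X.prod X)) (π : ℕ → C.CH (X.prod X)),
        LefStd W X D → IsSystem C D Λ π →
        IsCKDec W X π ∧ (∀ i, ckf C π i (i + 1) = ⊥) ∧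
          (ChowLefInj C X D ↔ ∀ i, ckf C π i 0 = C.gr X i)) ∧
      (∀ (X : 𝒱.Obj) (D : C.CH X), Good W X D → NilpCorr W X → ChowLefInj C X D →
        ChowLefInj C (X.prod X) (sumClass C D D) → MurreABC W X) ∧
      ∀ S : ∀ X : 𝒱.Obj, C.CH X → Prop, IsClass W S → (∀ X D, S X D → NilpCorr W X) →
        [∀ X D, S X D → ChowLefInj C X D, ∀ X : 𝒱.Obj, MurreB W X, ∀ X : 𝒱.Obj, MurreABC W X,
          ∀ (X : 𝒱.Obj) (D : C.CH X), LefStd W X D → ChowLefInj C X D].TFAE :=
  ⟨fun _ _ _ _ h hs => system_facts h hs, fun _ _ hg hN h1 hQ => murreABC_of_square hg hN h1 hQ,
    fun _ hS hN => tfae hS hN⟩
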