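import Pool.Agent.R903.Lef

/-!
# The half `F^(i+1) CH^i(X) = 0` of Murre's conjecture (B) from one equation

Let `X` be a smooth projective variety of dimension `n`, and let `L` be a correspondence in
`CH^(n+1)(X × X)`, for example `Δ_* D` for an ample divisor class `D`. Suppose that the equation
`[L, [L, Λ]] = -2 L`, which is linear in `Λ`, has a solution `Λ` in `CH^(n-1)(X × X)`. Then there
are mutually orthogonal idempotents `π 0, …, π 2n` in `CH^n(X × X)` with sum the diagonal which

* are a Chow–Künneth decomposition of `X` for each Weil cohomology theory for which `L` has the hard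
  Lefschetz property, and
* satisfy `F^(i+1) CH^i(X) = 0` for all `i`, and `(π j)_* CH^i(X) = 0` for all `j > i + n`.
-/

open Pool.Agent.H914 Pool.Agent.H914.VarClass Pool.Agent.H914.VarClass.Obj Pool.Agent.R903

universe u v w

namespace Pool.Agent.Results.MP_d6e134_ag.LefschetzLowerHalf

theorem result {k : Type u} [Field k] {𝒱 : VarClass k} (C : ChowTheory.{u, v} 𝒱) (X : 𝒱.Obj)
    (L : C.CH (X.prod X)) (hL : L ∈ C.gr (X.prod X) (X.dim + 1)) (hS : C.Solvable L) :
    ∃ π : ℕ → C.CH (X.prod X), C.IsDecomposition π ∧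
      (∀ W : WeilTheory.{u, v, w} C, W.HardLefschetz L → W.IsCK X π) ∧
      (∀ i, C.ckFil π i (i + 1) = ⊥) ∧ C.VanishesOutside π := by
  obtain ⟨Λ, hΛ, h0⟩ := hS
  obtain ⟨Λ', π, h⟩ := ChowTheory.exists_system hL hΛ h0
  have hv : C.VanishesOutside π := fun i j hij x hx => h.act_eq_zero hL hij hx
  refine ⟨π, h.decomp, fun W hW => h.isCK hL W hW, fun i => ?_, hv⟩
  rw [eq_bot_iff]
  rintro _ ⟨y, hy, rfl⟩
  rw [Submodule.mem_bot, WeilTheory.act_sum_apply]
  refine Finset.sum_eq_zero fun j hj => ?_
  rw [Finset.mem_range] at hj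
  exact hv i j (Or.inl (by omega)) y hy

end Pool.Agent.Results.MP_d6e134_ag.LefschetzLowerHalf
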