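import Pool.Agent.R903.OneCK

/-!
# Murre's conjecture (B) can be tested on one decomposition for each variety

Let `𝒱` be a class of smooth projective varieties over a field `k` which is closed under products
(for example all of them), with Chow groups `C` (rational coefficients) and a Weil cohomology theory
`W`. The following are equivalent:

1. Murre's conjecture (B) holds for all `X` in `𝒱` and all Chow–Künneth decompositions of `X`;
2. each `X` in `𝒱` which has a Chow–Künneth decomposition has no phantoms (nonzero idempotent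
   correspondences in `CH^(dim X)(X × X)` which act as zero on the cohomology), and it has *one*
   Chow–Künneth decomposition `π` with `π b ∘ γ ∘ π a = 0` for all `a < b` and all correspondences
   `γ` of degree zero, and with `F^(i+1) CH^i(X) = 0` for all `i`.

In fact the conditions in 2 for `X` imply (B) for `X`, and (B) for `X` and `X × X` implies the
conditions in 2 for `X`.
-/

open Pool.Agent.H914 Pool.Agent.R903

universe u v w

namespace Pool.Agent.Results.MP_d6e134_ag.OneDecomposition

theorem result {k : Type u} [Field k] {𝒱 : VarClass k} {C : ChowTheory.{u, v} 𝒱}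
    (W : WeilTheory.{u, v, w} C) (hP : C.Polarized) :
    (∀ X : 𝒱.Obj, W.HasGoodCK X → W.MurreB X) ∧
    (∀ X : 𝒱.Obj, W.HasCK X → W.MurreB X → W.MurreB (X.prod X) → W.HasGoodCK X) ∧
    ((∀ X : 𝒱.Obj, W.MurreB X) ↔ ∀ X : 𝒱.Obj, W.HasCK X → W.HasGoodCK X) := by
  have h1 : ∀ X : 𝒱.Obj, W.HasGoodCK X → W.MurreB X := by
    rintro X ⟨hN, π, hπ, hT, h0⟩ π' hπ' i
    have hC := hπ.murreC hT hN
    exact ⟨(hC i 0).murreB0 hP π' hπ', (hC i (i + 1) π' π hπ' hπ).trans (h0 i)⟩
  have h2 : ∀ X : 𝒱.Obj, W.HasCK X → W.MurreB X → W.MurreB (X.prod X) → W.HasGoodCK X := by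
    rintro X ⟨π, hπ⟩ hB hB2
    have hT : W.Triangular X :=
      WeilTheory.MurreB0.triangular (fun ρ hρ => (hB2 ρ hρ X.dim).1)
    exact ⟨hT.noPhantoms hP hπ, π, hπ, hT π π hπ hπ, fun i => (hB π hπ i).2⟩
  refine ⟨h1, h2, fun h X hX => h2 X hX (h X) (h _), fun h X π hπ => h1 X (h X ⟨π, hπ⟩) π hπ⟩

end Pool.Agent.Results.MP_d6e134_ag.OneDecomposition
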